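import Pool.Agent.H20.T4.Stm
import Pool.Agent.H9.TC.Basic
import Pool.Agent.H9.TC.F1
import Pool.Agent.H9.TC.F2
import Pool.Agent.H9.TC.G1

/-!
Project TM4 (MP_b6022c_nt), row (G1): near boundary counts for the slopes of a quartic polynomial.
-/

set_option autoImplicit false

namespace Pool.Agent.H20.T4

open Finset Pool.Agent.H9.TC Pool.Agent.H20.TM

/-! ### Distances to the nearest integer -/

theorem g1q_nn_le {y : ℝ} (h : |y| ≤ 1 / 2) : |y| ≤ nn y := by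
  unfold nn
  by_cases hz : round y = 0
  · rw [hz]
    simp
  · have h1 : (1 : ℝ) ≤ |(round y : ℝ)| := by
      have h2 : (1 : ℤ) ≤ |round y| := Int.one_le_abs hz
      exact_mod_cast h2
    have h3 : |(round y : ℝ)| ≤ |y - round y| + |y| := by
      have h4 : (round y : ℝ) = -(y - round y) + y := by ring
      calc |(round y : ℝ)| = |-(y - round y) + y| := by rw [← h4]
        _ ≤ |-(y - round y)| + |y| := abs_add_le _ _
        _ = _ := by rw [abs_neg]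
    linarith

theorem g1q_nn_small {x : ℤ} {u : ℕ} (h : |x| ≤ 2 ^ u) : |(x : ℝ)| / 2 ^ (u + 1) ≤
    nn ((x : ℝ) / 2 ^ (u + 1)) := by
  have h1 : |(x : ℝ) / 2 ^ (u + 1)| = |(x : ℝ)| / 2 ^ (u + 1) := by
    rw [abs_div, abs_of_pos (by positivity : (0 : ℝ) < 2 ^ (u + 1))]
  rw [← h1]
  apply g1q_nn_le
  rw [h1, div_le_iff₀ (by positivity), pow_succ]
  have h2 : |(x : ℝ)| ≤ 2 ^ u := by exact_mod_cast h
  linarith

theorem g1q_nn_dvd {x : ℤ} {u : ℕ} (h : ¬ (2 : ℤ) ^ u ∣ x) :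
    (1 / 2) ^ u ≤ nn ((x : ℝ) / 2 ^ u) := by
  unfold nn
  set z : ℤ := round ((x : ℝ) / 2 ^ u) with hz
  have h1 : x - z * 2 ^ u ≠ 0 := by
    intro h2
    exact h ⟨z, by linarith⟩
  have h2 : (1 : ℝ) ≤ |(x : ℝ) - z * 2 ^ u| := by
    have h3 : (1 : ℤ) ≤ |x - z * 2 ^ u| := Int.one_le_abs h1
    exact_mod_cast h3
  have h4 : (x : ℝ) / 2 ^ u - z = ((x : ℝ) - z * 2 ^ u) / 2 ^ u := by
    field_simp
  rw [h4, abs_div, abs_of_pos (by positivity : (0 : ℝ) < 2 ^ u), le_div_iff₀ (by positivity),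
    ← mul_pow]
  norm_num
  exact h2

theorem g1q_nd_mul {x y : ℤ} {A B : ℕ} (hx : ¬ (2 : ℤ) ^ A ∣ x) (hy : ¬ (2 : ℤ) ^ B ∣ y) :
    ¬ (2 : ℤ) ^ (A + B) ∣ x * y := by
  have hx0 : x ≠ 0 := fun h => hx (h ▸ dvd_zero _)
  have hy0 : y ≠ 0 := fun h => hy (h ▸ dvd_zero _)
  have hv : ∀ (n : ℕ) (a : ℤ), a ≠ 0 → ((2 : ℤ) ^ n ∣ a ↔ n ≤ padicValInt 2 a) := by
    intro n a ha
    have := padicValInt_dvd_iff (p := 2) n a
    push_cast at this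
    rw [this]
    exact ⟨fun h => h.resolve_left ha, Or.inr⟩
  rw [hv _ _ (mul_ne_zero hx0 hy0), padicValInt.mul hx0 hy0]
  rw [hv _ _ hx0] at hx
  rw [hv _ _ hy0] at hy
  omega

theorem g1q_nd_lt {x : ℤ} {A : ℕ} (h0 : x ≠ 0) (h : |x| < 2 ^ A) : ¬ (2 : ℤ) ^ A ∣ x := by
  intro hd
  have h1 := Int.le_of_dvd (abs_pos.2 h0) ((dvd_abs _ _).2 hd)
  linarith

/-! ### The exponential sum over the points -/

/-- The exponential sum for one pair. -/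
theorem g1q_pair (hw : W3Stmt) {c g : ℕ} (hc : 1 ≤ c) {p u a μ : ℕ} (hp : c + 2 * g + 10 ≤ p)
    (hu : 24 * p ≤ u) (hua : u ≤ a) (hμ : 4 * μ + 200 * p ≤ a) {h δ : ℤ} (h0 : h ≠ 0)
    (hh : |h| ≤ 4 ^ g) (hδ : |δ| ≤ 2 ^ μ) (hd : ¬ (2 : ℤ) ^ (6 * p) ∣ δ) (t2 t1 t0 : ℝ) :
    ‖∑ b ∈ range (2 ^ a), ee ((((4 * c * h * δ : ℤ) : ℝ) / 2 ^ u) * (b : ℝ) ^ 3 +
      t2 * (b : ℝ) ^ 2 + t1 * b + t0)‖ ≤ 2 ^ a * (4 * (1 / 2) ^ (2 * p)) := by
  have hδ0 : δ ≠ 0 := fun h => hd (h ▸ dvd_zero _)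
  have hc0 : (24 * c : ℤ) ≠ 0 := by
    have : (0 : ℤ) < c := by exact_mod_cast hc
    positivity
  have hcb : |(24 * c : ℤ)| < 2 ^ (5 + c) := by
    have h2 : (c : ℤ) < 2 ^ c := by exact_mod_cast Nat.lt_two_pow_self
    rw [abs_of_nonneg (by positivity), pow_add]
    have h3 : (0 : ℤ) < 2 ^ c := by positivity
    nlinarith
  have h4g : (4 : ℤ) ^ g = 2 ^ (2 * g) := by rw [pow_mul]; norm_num
  -- the choice of the parameters
  have key : ∃ (H K0 : ℕ) (η : ℝ), 1 ≤ H ∧ 1 ≤ K0 ∧ 0 < η ∧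
      (∀ k1 k2 : ℕ, K0 ≤ k1 → k1 < H → K0 ≤ k2 → k2 < H →
        η ≤ nn (6 * k1 * k2 * (((4 * c * h * δ : ℤ) : ℝ) / 2 ^ u))) ∧
      1 / (η * (2 ^ a : ℕ)) + 6 * K0 / H + H / (2 ^ a : ℕ) ≤ 8 * (1 / 2 : ℝ) ^ (8 * p) := by
    have hcast : ∀ k1 k2 : ℕ, 6 * (k1 : ℝ) * k2 * (((4 * c * h * δ : ℤ) : ℝ) / 2 ^ u) =
        ((24 * c * h * δ * k1 * k2 : ℤ) : ℝ) / 2 ^ u := by
      intro k1 k2
      push_cast
      ring
    have hpw : ∀ i j : ℕ, i + j ≤ a → (2 : ℝ) ^ i / 2 ^ a ≤ (1 / 2) ^ j := by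
      intro i j hij
      rw [div_le_iff₀ (by positivity), one_div, inv_pow, inv_mul_eq_div,
        le_div_iff₀ (by positivity), ← pow_add]
      exact pow_le_pow_right₀ (by norm_num) hij
    rcases le_or_gt (2 * u) a with hcase | hcase
    · refine ⟨2 ^ (8 * p), 1, (1 / 2) ^ u, Nat.one_le_two_pow, le_rfl, by positivity, ?_, ?_⟩
      · intro k1 k2 hk1 hk1' hk2 hk2'
        rw [hcast]
        apply g1q_nn_dvd
        have n1 : ¬ (2 : ℤ) ^ (5 + c) ∣ (24 * c : ℤ) := g1q_nd_lt hc0 hcb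
        have n2 : ¬ (2 : ℤ) ^ (2 * g + 1) ∣ h := by
          apply g1q_nd_lt h0
          rw [h4g] at hh
          rw [pow_succ]
          have : (0 : ℤ) < 2 ^ (2 * g) := by positivity
          linarith
        have nk : ∀ k : ℕ, 1 ≤ k → k < 2 ^ (8 * p) → ¬ (2 : ℤ) ^ (8 * p) ∣ (k : ℤ) := by
          intro k hk hk'
          apply g1q_nd_lt (by exact_mod_cast (by omega : k ≠ 0))
          rw [abs_of_nonneg (by positivity)]
          exact_mod_cast hk'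
        have n3 := g1q_nd_mul (g1q_nd_mul (g1q_nd_mul (g1q_nd_mul n1 n2) hd) (nk k1 hk1 hk1'))
          (nk k2 hk2 hk2')
        intro hdv
        exact n3 ((pow_dvd_pow 2 (by omega)).trans hdv)
      · push_cast
        have e1 : 1 / ((1 / 2 : ℝ) ^ u * 2 ^ a) = 2 ^ u / 2 ^ a := by
          rw [one_div (2 : ℝ), inv_pow]
          field_simp
        have e2 : 6 * (1 : ℝ) / 2 ^ (8 * p) = 6 * (1 / 2) ^ (8 * p) := by
          rw [one_div (2 : ℝ), inv_pow]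
          field_simp
        rw [e1, e2]
        have e3 := hpw u (8 * p) (by omega)
        have e4 := hpw (8 * p) (8 * p) (by omega)
        linarith
    · obtain ⟨s, hs1, hs2⟩ : ∃ s : ℕ, 2 * s + μ + (c + 2 * g + 6) ≤ u ∧ 12 * p ≤ s :=
        ⟨(u - μ - (c + 2 * g + 6)) / 2, by omega, by omega⟩
      obtain ⟨u', rfl⟩ : ∃ u', u = u' + 1 := ⟨u - 1, by omega⟩
      refine ⟨2 ^ s, 2 ^ (4 * p), 2 ^ (8 * p) / 2 ^ (u' + 1), Nat.one_le_two_pow,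
        Nat.one_le_two_pow, by positivity, ?_, ?_⟩
      · intro k1 k2 hk1 hk1' hk2 hk2'
        rw [hcast]
        have hk1r : ((2 : ℤ) ^ (4 * p)) ≤ (k1 : ℤ) := by exact_mod_cast hk1
        have hk2r : ((2 : ℤ) ^ (4 * p)) ≤ (k2 : ℤ) := by exact_mod_cast hk2
        have hk1s : (k1 : ℤ) ≤ 2 ^ s := by exact_mod_cast hk1'.le
        have hk2s : (k2 : ℤ) ≤ 2 ^ s := by exact_mod_cast hk2'.le
        have habs : |(24 * c * h * δ * k1 * k2 : ℤ)| = |(24 * c : ℤ)| * |h| * |δ| * k1 * k2 := by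
          rw [abs_mul, abs_mul, abs_mul, abs_mul, Nat.abs_cast, Nat.abs_cast]
        have hup : |(24 * c * h * δ * k1 * k2 : ℤ)| ≤ 2 ^ u' := by
          rw [habs]
          calc |(24 * c : ℤ)| * |h| * |δ| * k1 * k2
              ≤ 2 ^ (5 + c) * 2 ^ (2 * g) * 2 ^ μ * 2 ^ s * 2 ^ s := by
                rw [h4g] at hh
                gcongr
            _ = 2 ^ (5 + c + 2 * g + μ + s + s) := by
                rw [← pow_add, ← pow_add, ← pow_add, ← pow_add]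
            _ ≤ 2 ^ u' := pow_le_pow_right₀ (by norm_num) (by omega)
        refine le_trans ?_ (g1q_nn_small hup)
        apply div_le_div_of_nonneg_right _ (by positivity)
        have hlow : (2 : ℤ) ^ (8 * p) ≤ |(24 * c * h * δ * k1 * k2 : ℤ)| := by
          rw [habs]
          have a1 : (1 : ℤ) ≤ |(24 * c : ℤ)| := Int.one_le_abs hc0
          have a2 : (1 : ℤ) ≤ |h| := Int.one_le_abs h0
          have a3 : (1 : ℤ) ≤ |δ| := Int.one_le_abs hδ0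
          calc (2 : ℤ) ^ (8 * p) = 1 * 1 * 1 * 2 ^ (4 * p) * 2 ^ (4 * p) := by
                rw [one_mul, one_mul, one_mul, ← pow_add]
                congr 1
                omega
            _ ≤ |(24 * c : ℤ)| * |h| * |δ| * k1 * k2 := by gcongr
        exact_mod_cast hlow
      · push_cast
        have e1 : 1 / ((2 : ℝ) ^ (8 * p) / 2 ^ (u' + 1) * 2 ^ a) =
            (2 ^ (u' + 1) / 2 ^ a) * (1 / 2) ^ (8 * p) := by
          rw [one_div (2 : ℝ), inv_pow]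
          field_simp
        have e3 : (2 : ℝ) ^ (u' + 1) / 2 ^ a ≤ 1 := by
          have := hpw (u' + 1) 0 (by omega)
          simpa using this
        have e4 := hpw s (8 * p) (by omega)
        have e5 : 6 * (2 : ℝ) ^ (4 * p) / 2 ^ s ≤ 6 * (1 / 2) ^ (8 * p) := by
          rw [mul_div_assoc]
          apply mul_le_mul_of_nonneg_left _ (by norm_num)
          rw [div_le_iff₀ (by positivity), one_div, inv_pow, inv_mul_eq_div,
            le_div_iff₀ (by positivity), ← pow_add]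
          exact pow_le_pow_right₀ (by norm_num) (by omega)
        rw [e1]
        have e6 : (2 : ℝ) ^ (u' + 1) / 2 ^ a * (1 / 2) ^ (8 * p) ≤ 1 * (1 / 2) ^ (8 * p) :=
          mul_le_mul_of_nonneg_right e3 (by positivity)
        linarith
  obtain ⟨H, K0, η, hH, hK0, hη, hnn, hb⟩ := key
  have h1 := hw (((4 * c * h * δ : ℤ) : ℝ) / 2 ^ u) t2 t1 t0 (2 ^ a) H K0 η Nat.one_le_two_pow
    hH hK0 hη hnn (2 ^ a) le_rfl
  have h2 : ((2 ^ a : ℕ) : ℝ) ^ 4 * (10 * (1 / (η * (2 ^ a : ℕ)) + 6 * K0 / H +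
      H / (2 ^ a : ℕ))) ≤ (2 ^ a * (4 * (1 / 2 : ℝ) ^ (2 * p))) ^ 4 := by
    have e5 : ((1 / 2 : ℝ) ^ (2 * p)) ^ 4 = (1 / 2) ^ (8 * p) := by
      rw [← pow_mul]; congr 1; omega
    rw [mul_pow, mul_pow, e5]
    push_cast
    refine mul_le_mul_of_nonneg_left ?_ (by positivity)
    have h4 : (0 : ℝ) ≤ (1 / 2) ^ (8 * p) := by positivity
    have h5 : (4 : ℝ) ^ 4 = 256 := by norm_num
    push_cast at hb
    rw [h5]
    linarith
  exact le_of_pow_le_pow_left₀ (by norm_num) (by positivity) (h1.trans h2)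

theorem g1q_mom (hw : W3Stmt) {c g : ℕ} (hc : 1 ≤ c) {p u a μ M : ℕ}
    (hp : c + 2 * g + 10 ≤ p) (hu : 24 * p ≤ u) (hua : u ≤ a) (hM : 2 ^ p ≤ M)
    (hMμ : M ≤ 2 ^ μ) (hμ : 4 * μ + 200 * p ≤ a)
    (d e f : ℤ) {h : ℤ} (h0 : h ≠ 0) (hh : |h| ≤ 4 ^ g) :
    ∑ b ∈ range (2 ^ a), ‖∑ m ∈ range M, ee ((h : ℝ) *
      ((m : ℝ) * ((dqua c d e f b : ℤ) : ℝ)) / 2 ^ u)‖ ^ 2 ≤
      4 * (1 / 2) ^ p * (2 ^ a * (M : ℝ) ^ 2) := by
  set x : ℕ → ℕ → ℝ := fun b m => (h : ℝ) *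
      ((m : ℝ) * ((dqua c d e f b : ℤ) : ℝ)) / 2 ^ u with hx
  have e1 : ((∑ b ∈ range (2 ^ a), ‖∑ m ∈ range M, ee (x b m)‖ ^ 2 : ℝ) : ℂ) =
      ∑ m ∈ range M, ∑ m' ∈ range M, ∑ b ∈ range (2 ^ a), ee (x b m - x b m') := by
    rw [Complex.ofReal_sum, sum_congr rfl fun b _ => normSq_sum_ee (range M) (x b), sum_comm]
    exact sum_congr rfl fun m _ => sum_comm
  have e2 : ‖((∑ b ∈ range (2 ^ a), ‖∑ m ∈ range M, ee (x b m)‖ ^ 2 : ℝ) : ℂ)‖ =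
      ∑ b ∈ range (2 ^ a), ‖∑ m ∈ range M, ee (x b m)‖ ^ 2 := by
    rw [Complex.norm_real, Real.norm_eq_abs, abs_of_nonneg (sum_nonneg fun _ _ => by positivity)]
  rw [← e2, e1]
  refine (norm_sum_le _ _).trans ((sum_le_sum fun m _ => norm_sum_le _ _).trans ?_)
  -- bound for one pair
  have hpair : ∀ m ∈ range M, ∀ m' ∈ range M, ‖∑ b ∈ range (2 ^ a), ee (x b m - x b m')‖ ≤
      2 ^ a * ((if (((2 ^ (6 * p) : ℕ) : ℤ)) ∣ (m : ℤ) - m' then 1 else 0) +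
        4 * (1 / 2) ^ (2 * p)) := by
    intro m hm m' hm'
    by_cases hd : (((2 ^ (6 * p) : ℕ) : ℤ)) ∣ (m : ℤ) - m'
    · rw [if_pos hd]
      have h1 : ‖∑ b ∈ range (2 ^ a), ee (x b m - x b m')‖ ≤ 2 ^ a := by
        refine (norm_sum_le _ _).trans ?_
        simp [norm_ee]
      have h2 : (0 : ℝ) ≤ 4 * (1 / 2) ^ (2 * p) := by positivity
      have h3 : (0 : ℝ) < 2 ^ a := by positivity
      nlinarith
    · rw [if_neg hd, zero_add]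
      push_cast at hd
      have hδ : |(m : ℤ) - m'| ≤ 2 ^ μ := by
        rw [mem_range] at hm hm'
        have h5 : (M : ℤ) ≤ 2 ^ μ := by exact_mod_cast hMμ
        rw [abs_le]
        constructor <;> omega
      have h1 := g1q_pair hw hc hp hu hua hμ h0 hh hδ hd
        ((h : ℝ) * ((m : ℝ) - m') * (3 * d) / 2 ^ u) ((h : ℝ) * ((m : ℝ) - m') * (2 * e) / 2 ^ u)
        ((h : ℝ) * ((m : ℝ) - m') * f / 2 ^ u)
      have e3 : ∑ b ∈ range (2 ^ a), ee (x b m - x b m') = ∑ b ∈ range (2 ^ a),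
          ee ((((4 * c * h * ((m : ℤ) - m') : ℤ) : ℝ) / 2 ^ u) * (b : ℝ) ^ 3 +
            ((h : ℝ) * ((m : ℝ) - m') * (3 * d) / 2 ^ u) * (b : ℝ) ^ 2 +
            ((h : ℝ) * ((m : ℝ) - m') * (2 * e) / 2 ^ u) * b +
            (h : ℝ) * ((m : ℝ) - m') * f / 2 ^ u) := by
        refine sum_congr rfl fun b _ => ?_
        congr 1
        simp only [hx, dqua]
        push_cast
        ring
      rw [e3]
      exact h1
  refine (sum_le_sum fun m hm => sum_le_sum fun m' hm' => hpair m hm m' hm').trans ?_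
  have hrow : ∀ m ∈ range M, ∑ m' ∈ range M,
      (2 : ℝ) ^ a * ((if (((2 ^ (6 * p) : ℕ) : ℤ)) ∣ (m : ℤ) - m' then 1 else 0) +
        4 * (1 / 2) ^ (2 * p)) ≤ 2 ^ a * ((M / ((2 ^ (6 * p) : ℕ) : ℝ) + 1) +
          M * (4 * (1 / 2) ^ (2 * p))) := by
    intro m _
    rw [← mul_sum, sum_add_distrib, sum_const, card_range, nsmul_eq_mul]
    refine mul_le_mul_of_nonneg_left ?_ (by positivity)
    refine add_le_add ?_ le_rfl
    rw [← sum_filter, sum_const, nsmul_eq_mul, mul_one]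
    exact g1_count M (2 ^ (6 * p)) m (by positivity)
  refine (sum_le_sum hrow).trans ?_
  rw [sum_const, card_range, nsmul_eq_mul]
  have hMr : (2 : ℝ) ^ p ≤ M := by exact_mod_cast hM
  have hM0 : (0 : ℝ) ≤ M := Nat.cast_nonneg _
  have hMM : (M : ℝ) ≤ (1 / 2) ^ p * (M : ℝ) ^ 2 := by
    have e6 : (1 / 2 : ℝ) ^ p * 2 ^ p = 1 := by rw [← mul_pow]; norm_num
    calc (M : ℝ) = (1 / 2) ^ p * 2 ^ p * M := by rw [e6, one_mul]
      _ ≤ (1 / 2) ^ p * M * M := by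
          have : (1 / 2 : ℝ) ^ p * 2 ^ p ≤ (1 / 2) ^ p * M :=
            mul_le_mul_of_nonneg_left hMr (by positivity)
          exact mul_le_mul_of_nonneg_right this hM0
      _ = (1 / 2) ^ p * (M : ℝ) ^ 2 := by ring
  have h6 : (M : ℝ) / ((2 ^ (6 * p) : ℕ) : ℝ) ≤ (1 / 2) ^ p * M := by
    push_cast
    rw [div_eq_mul_inv, ← inv_pow, mul_comm, ← one_div]
    refine mul_le_mul_of_nonneg_right ?_ hM0
    exact pow_le_pow_of_le_one (by norm_num) (by norm_num) (by omega)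
  have h7 : (1 / 2 : ℝ) ^ (2 * p) * 4 ≤ (1 / 2) ^ p := by
    have hp1 : 2 ≤ p := by omega
    calc (1 / 2 : ℝ) ^ (2 * p) * 4 ≤ (1 / 2) ^ (p + 2) * 4 := by
          refine mul_le_mul_of_nonneg_right ?_ (by norm_num)
          exact pow_le_pow_of_le_one (by norm_num) (by norm_num) (by omega)
      _ = (1 / 2) ^ p := by rw [pow_add]; ring
  have h8 : (M : ℝ) * ((M / ((2 ^ (6 * p) : ℕ) : ℝ) + 1) + M * (4 * (1 / 2) ^ (2 * p))) ≤
      4 * (1 / 2) ^ p * (M : ℝ) ^ 2 := by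
    have h9 : (M : ℝ) * (M / ((2 ^ (6 * p) : ℕ) : ℝ)) ≤ (1 / 2) ^ p * (M : ℝ) ^ 2 := by
      calc (M : ℝ) * (M / ((2 ^ (6 * p) : ℕ) : ℝ)) ≤ M * ((1 / 2) ^ p * M) :=
            mul_le_mul_of_nonneg_left h6 hM0
        _ = (1 / 2) ^ p * (M : ℝ) ^ 2 := by ring
    have h10 : (M : ℝ) * (M * (4 * (1 / 2) ^ (2 * p))) ≤ (1 / 2) ^ p * (M : ℝ) ^ 2 := by
      calc (M : ℝ) * (M * (4 * (1 / 2) ^ (2 * p))) = ((1 / 2) ^ (2 * p) * 4) * (M : ℝ) ^ 2 := by ring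
        _ ≤ (1 / 2) ^ p * (M : ℝ) ^ 2 := mul_le_mul_of_nonneg_right h7 (by positivity)
    have h11 : (0 : ℝ) ≤ (1 / 2) ^ p * (M : ℝ) ^ 2 := by positivity
    nlinarith
  have h12 : (0 : ℝ) < 2 ^ a := by positivity
  calc (M : ℝ) * (2 ^ a * ((M / ((2 ^ (6 * p) : ℕ) : ℝ) + 1) + M * (4 * (1 / 2) ^ (2 * p))))
      = 2 ^ a * ((M : ℝ) * ((M / ((2 ^ (6 * p) : ℕ) : ℝ) + 1) + M * (4 * (1 / 2) ^ (2 * p)))) := by
        ring
    _ ≤ 2 ^ a * (4 * (1 / 2) ^ p * (M : ℝ) ^ 2) := mul_le_mul_of_nonneg_left h8 h12.le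
    _ = _ := by ring

theorem g1 (hw : W3Stmt) : G1Stmt := by
  intro c g hc hg
  refine ⟨12 * 16 ^ g, c + 2 * g + 10, ?_⟩
  intro p hp u a μ M hu hua hM hMμ hμ d e f
  have hMr : (2 : ℝ) ^ p ≤ M := by exact_mod_cast hM
  have hM0 : (0 : ℝ) < M := lt_of_lt_of_le (by positivity) hMr
  rcases Nat.lt_or_ge g 4 with hg4 | hg4
  · have h3 : cnt (2 ^ a) (fun b => ¬ Nr M g u (dqua c d e f b)) ≤
        cnt (2 ^ a) (fun _ => False) :=
      cnt_mono fun b _ hb => hb (g1_triv (by omega))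
    have h4 : cnt (2 ^ a) (fun _ => False) = 0 := by
      classical
      unfold cnt
      simp
    have h5 : cnt (2 ^ a) (fun b => ¬ Nr M g u (dqua c d e f b)) = 0 := by
      omega
    rw [h5]
    push_cast
    rw [zero_mul]
    positivity
  obtain ⟨r, rfl⟩ : ∃ r, u = g + r := ⟨u - g, by omega⟩
  classical
  set Nn : ℤ → ℕ → ℝ := fun h b => ‖∑ m ∈ range M, ee ((h : ℝ) *
      ((m : ℝ) * ((dqua c d e f b : ℤ) : ℝ)) / 2 ^ (g + r))‖ with hNn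
  set H : Finset ℤ := (Icc (-(4 : ℤ) ^ g) (4 ^ g)).filter (fun h => h ≠ 0) with hH
  have hcard : (H.card : ℝ) ≤ 3 * 4 ^ g := by
    have h3 : H.card ≤ (Icc (-(4 : ℤ) ^ g) (4 ^ g)).card := card_filter_le _ _
    rw [Int.card_Icc] at h3
    have h4 : ((4 : ℤ) ^ g + 1 - -4 ^ g).toNat = 2 * 4 ^ g + 1 := by
      have : ((4 : ℤ) ^ g + 1 - -4 ^ g) = ((2 * 4 ^ g + 1 : ℕ) : ℤ) := by push_cast; ring
      rw [this, Int.toNat_natCast]
    rw [h4] at h3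
    have h5 : (H.card : ℝ) ≤ 2 * 4 ^ g + 1 := by exact_mod_cast h3
    have h6 : (1 : ℝ) ≤ 4 ^ g := one_le_pow₀ (by norm_num)
    linarith
  have hone : ∀ h ∈ H, (cnt (2 ^ a) (fun b => (1 / 2) ^ g * (M : ℝ) < Nn h b) : ℝ) ≤
      4 * 4 ^ g * ((1 / 2) ^ p * 2 ^ a) := by
    intro h hh
    rw [hH, mem_filter, mem_Icc] at hh
    have h3 := g1q_mom hw hc hp hu hua hM hMμ hμ d e f hh.2 (abs_le.2 hh.1)
    have h4 := cnt_markov (M := 2 ^ a) (P := fun b => (1 / 2) ^ g * (M : ℝ) < Nn h b)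
      (f := fun b => Nn h b ^ 2) (c := ((1 / 2) ^ g * (M : ℝ)) ^ 2) (fun _ _ => by positivity)
      (fun b _ hb => pow_le_pow_left₀ (by positivity) hb.le 2)
    have h5 := h4.trans h3
    have e1 : ((1 / 2 : ℝ) ^ g * M) ^ 2 = (M : ℝ) ^ 2 * (1 / 4) ^ g := by
      rw [mul_pow, ← pow_mul, mul_comm g 2, pow_mul]
      norm_num
      ring
    rw [e1] at h5
    have e2 : (4 : ℝ) ^ g * (1 / 4) ^ g = 1 := by rw [← mul_pow]; norm_num
    have hM2 : (0 : ℝ) < (M : ℝ) ^ 2 := by positivity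
    have h6 : (1 / 4 : ℝ) ^ g * (cnt (2 ^ a) (fun b => (1 / 2) ^ g * (M : ℝ) < Nn h b) : ℝ) ≤
        4 * (1 / 2) ^ p * 2 ^ a := by
      refine le_of_mul_le_mul_left ?_ hM2
      calc (M : ℝ) ^ 2 * ((1 / 4 : ℝ) ^ g *
            (cnt (2 ^ a) (fun b => (1 / 2) ^ g * (M : ℝ) < Nn h b) : ℝ))
          = (M : ℝ) ^ 2 * (1 / 4) ^ g *
            (cnt (2 ^ a) (fun b => (1 / 2) ^ g * (M : ℝ) < Nn h b) : ℝ) := by ring
        _ ≤ 4 * (1 / 2) ^ p * (2 ^ a * (M : ℝ) ^ 2) := h5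
        _ = (M : ℝ) ^ 2 * (4 * (1 / 2) ^ p * 2 ^ a) := by ring
    calc (cnt (2 ^ a) (fun b => (1 / 2) ^ g * (M : ℝ) < Nn h b) : ℝ)
        = 4 ^ g * ((1 / 4 : ℝ) ^ g *
          (cnt (2 ^ a) (fun b => (1 / 2) ^ g * (M : ℝ) < Nn h b) : ℝ)) := by
          rw [← mul_assoc, e2, one_mul]
      _ ≤ 4 ^ g * (4 * (1 / 2) ^ p * 2 ^ a) := mul_le_mul_of_nonneg_left h6 (by positivity)
      _ = 4 * 4 ^ g * ((1 / 2) ^ p * 2 ^ a) := by ring
  have h3 : cnt (2 ^ a) (fun b => ¬ Nr M g (g + r) (dqua c d e f b)) ≤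
      cnt (2 ^ a) (fun b => ∃ h ∈ H, (1 / 2) ^ g * (M : ℝ) < Nn h b) := by
    refine cnt_mono fun b _ hb => ?_
    by_contra hcon
    push Not at hcon
    refine hb (g1_det f1 f2 hg4 fun h h0 hh => ?_)
    refine hcon h ?_
    rw [hH, mem_filter, mem_Icc]
    exact ⟨abs_le.1 hh, h0⟩
  have h4 : (cnt (2 ^ a) (fun b => ¬ Nr M g (g + r) (dqua c d e f b)) : ℝ) ≤
      3 * 4 ^ g * (4 * 4 ^ g * ((1 / 2) ^ p * 2 ^ a)) := by
    calc (cnt (2 ^ a) (fun b => ¬ Nr M g (g + r) (dqua c d e f b)) : ℝ)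
        ≤ ((∑ h ∈ H, cnt (2 ^ a) (fun b => (1 / 2) ^ g * (M : ℝ) < Nn h b) : ℕ) : ℝ) := by
          exact_mod_cast h3.trans (cnt_exists _ H _)
      _ = ∑ h ∈ H, (cnt (2 ^ a) (fun b => (1 / 2) ^ g * (M : ℝ) < Nn h b) : ℝ) := by push_cast; rfl
      _ ≤ ∑ h ∈ H, 4 * 4 ^ g * ((1 / 2) ^ p * 2 ^ a) := sum_le_sum hone
      _ = H.card * (4 * 4 ^ g * ((1 / 2) ^ p * 2 ^ a)) := by rw [sum_const, nsmul_eq_mul]
      _ ≤ 3 * 4 ^ g * (4 * 4 ^ g * ((1 / 2) ^ p * 2 ^ a)) :=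
          mul_le_mul_of_nonneg_right hcard (by positivity)
  have e3 : (1 / 2 : ℝ) ^ p * 2 ^ p = 1 := by rw [← mul_pow]; norm_num
  have e4 : (16 : ℝ) ^ g = 4 ^ g * 4 ^ g := by rw [← mul_pow]; norm_num
  calc (cnt (2 ^ a) (fun b => ¬ Nr M g (g + r) (dqua c d e f b)) : ℝ) * 2 ^ p
      ≤ 3 * 4 ^ g * (4 * 4 ^ g * ((1 / 2) ^ p * 2 ^ a)) * 2 ^ p :=
        mul_le_mul_of_nonneg_right h4 (by positivity)
    _ = 12 * (4 ^ g * 4 ^ g) * 2 ^ a * ((1 / 2) ^ p * 2 ^ p) := by ring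
    _ = 12 * 16 ^ g * 2 ^ a := by rw [e3, e4, mul_one]

end Pool.Agent.H20.T4
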